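import Pool.Agent.H367Z.LuoMain

set_option autoImplicit false

namespace Pool.Agent.Results.MP_e8da18_gt.SphereCounterexample

open Pool.Agent.H367Z.Luo

/-- There is a triangulation `T` of the `3`-sphere such that, for either convention `c` for the
cyclic order of the quadrilaterals, some `z ∈ W(T)` has volume larger than `v₃ ‖M‖` (and larger
than `2 v₃`). -/
theorem result : ∃ T : Triangulation,
    Nonempty (T.Space ≃ₜ Metric.sphere (0 : EuclideanSpace ℝ (Fin 4)) 1) ∧
    ∀ c : Fin 3, c ≠ 0 → ∃ z ∈ T.W c, 2 * v3 < vol z ∧ v3 * T.gromovNorm < vol z :=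
  ⟨T8, ⟨homeo⟩, main⟩

end Pool.Agent.Results.MP_e8da18_gt.SphereCounterexample
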